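import Pool.Agent.helper79.WB.SpecII

set_option autoImplicit false

namespace Pool.Agent.WB

open MvPolynomial

theorem COMB_lower (θ : ℕ) (Z : Finset V3) (F : Finset (V3 × V3))
    (h : ∀ η ∈ Z, θ ≤ (F.filter fun e => e.2 = η).card) :
    θ * Z.card ≤ (F.filter fun e => e.2 ∈ Z).card := by
  classical
  have hm : ((F.filter fun e => e.2 ∈ Z : Finset (V3 × V3)) : Set (V3 × V3)).MapsTo Prod.snd
      (Z : Set V3) := by
    intro e he
    have he' := Finset.mem_coe.1 he
    exact Finset.mem_coe.2 (Finset.mem_filter.1 he').2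
  rw [Finset.card_eq_sum_card_fiberwise hm]
  have : Z.card * θ ≤ ∑ b ∈ Z, ((F.filter fun e => e.2 ∈ Z).filter fun e => Prod.snd e = b).card := by
    rw [← smul_eq_mul]
    apply Finset.card_nsmul_le_sum
    intro η hη
    refine (h η hη).trans (Finset.card_le_card ?_)
    intro e he
    rw [Finset.mem_filter] at he
    rw [Finset.mem_filter, Finset.mem_filter]
    exact ⟨⟨he.1, by rw [he.2]; exact hη⟩, he.2⟩
  rw [mul_comm]; exact this

theorem COMB_upper (θ : ℕ) (Z : Finset V3) (F : Finset (V3 × V3))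
    (h : ∀ η ∈ Z, (F.filter fun e => e.2 = η).card ≤ 2 * θ) :
    (F.filter fun e => e.2 ∈ Z).card ≤ 2 * θ * Z.card := by
  classical
  have hm : ((F.filter fun e => e.2 ∈ Z : Finset (V3 × V3)) : Set (V3 × V3)).MapsTo Prod.snd
      (Z : Set V3) := by
    intro e he
    have he' := Finset.mem_coe.1 he
    exact Finset.mem_coe.2 (Finset.mem_filter.1 he').2
  rw [Finset.card_eq_sum_card_fiberwise hm]
  have : ∑ b ∈ Z, ((F.filter fun e => e.2 ∈ Z).filter fun e => Prod.snd e = b).card ≤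
      Z.card * (2 * θ) := by
    rw [← smul_eq_mul]
    apply Finset.sum_le_card_nsmul
    intro η hη
    refine (Finset.card_le_card ?_).trans (h η hη)
    intro e he
    rw [Finset.mem_filter, Finset.mem_filter] at he
    rw [Finset.mem_filter]
    exact ⟨he.1.1, he.2⟩
  rw [mul_comm]; exact this

theorem COMB (h1 : FACT_stmt) (h2 : EXE_stmt) (h3 : LINE_stmt) : COMB_stmt := by
  classical
  intro N D θ T ξ M c X A B F G hN hξ hM hD hc hX hG hF hA hB hmult hpt hdeg hBZ hPB
  obtain ⟨PP, hPP, hsum, hcov⟩ := h1 G D hG.1 hG.2.1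
  set Z := B.filter fun η => eval η G = 0 with hZ
  set PP2 := PP.filter fun p => 2 ≤ p.totalDegree with hPP2
  set PP1 := PP.filter fun p => p.totalDegree = 1 with hPP1
  set Z2 := Z.filter fun η => ∃ p ∈ PP, 2 ≤ p.totalDegree ∧ eval η p = 0 with hZ2
  -- counting of the factors
  have hdle : ∀ p ∈ PP, p.totalDegree ≤ D := fun p hp =>
    (Finset.single_le_sum (f := fun p : MvPolynomial (Fin 3) ℤ => p.totalDegree)
      (fun _ _ => Nat.zero_le _) hp).trans hsum
  have hcard : PP.card ≤ D := by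
    refine le_trans ?_ hsum
    have := Finset.card_nsmul_le_sum PP (fun p : MvPolynomial (Fin 3) ℤ => p.totalDegree) 1
      (fun p hp => (hPP p hp).2.2.1)
    simpa using this
  have hcard2 : PP2.card ≤ D := (Finset.card_le_card (Finset.filter_subset _ _)).trans hcard
  have hcard1 : PP1.card ≤ D := (Finset.card_le_card (Finset.filter_subset _ _)).trans hcard
  have hsum2 : ∑ p ∈ PP2, p.totalDegree ^ 2 ≤ D ^ 2 := by
    calc ∑ p ∈ PP2, p.totalDegree ^ 2 ≤ ∑ p ∈ PP, p.totalDegree ^ 2 :=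
          Finset.sum_le_sum_of_subset (Finset.filter_subset _ _)
      _ ≤ ∑ p ∈ PP, D * p.totalDegree := by
          apply Finset.sum_le_sum
          intro p hp
          rw [pow_two]
          exact Nat.mul_le_mul_right _ (hdle p hp)
      _ = D * ∑ p ∈ PP, p.totalDegree := by rw [Finset.mul_sum]
      _ ≤ D * D := Nat.mul_le_mul_left _ hsum
      _ = D ^ 2 := (pow_two D).symm
  -- the set `Z2`
  have hZ2card : (Z2.card : ℝ) ≤ c * ((D : ℝ) ^ 2 + (D : ℝ) * X) := by
    have hsub : Z2 ⊆ PP2.biUnion fun p => Z.filter fun η => eval η p = 0 := by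
      intro η hη
      rw [hZ2, Finset.mem_filter] at hη
      obtain ⟨hηZ, p, hp, hp2, hpe⟩ := hη
      rw [Finset.mem_biUnion]
      exact ⟨p, Finset.mem_filter.2 ⟨hp, hp2⟩, Finset.mem_filter.2 ⟨hηZ, hpe⟩⟩
    have h4 : Z2.card ≤ ∑ p ∈ PP2, (Z.filter fun η => eval η p = 0).card :=
      (Finset.card_le_card hsub).trans Finset.card_biUnion_le
    have h5 : ((∑ p ∈ PP2, (Z.filter fun η => eval η p = 0).card : ℕ) : ℝ) ≤
        ∑ p ∈ PP2, c * ((p.totalDegree : ℝ) ^ 2 + X) := by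
      push_cast
      apply Finset.sum_le_sum
      intro p hp
      rw [hPP2, Finset.mem_filter] at hp
      refine hPB p.totalDegree p (hPP p hp.1).1 (hPP p hp.1).2.1 hp.2 ((hdle p hp.1).trans hD) _
        ?_ ?_
      · exact (Finset.filter_subset _ _).trans (Finset.filter_subset _ _)
      · intro η hη
        exact (Finset.mem_filter.1 hη).2
    have h6 : (Z2.card : ℝ) ≤ ∑ p ∈ PP2, c * ((p.totalDegree : ℝ) ^ 2 + X) :=
      le_trans (by exact_mod_cast h4) h5
    refine h6.trans ?_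
    rw [← Finset.mul_sum, Finset.sum_add_distrib, Finset.sum_const, nsmul_eq_mul]
    apply mul_le_mul_of_nonneg_left _ hc
    apply add_le_add
    · exact_mod_cast hsum2
    · exact mul_le_mul_of_nonneg_right (by exact_mod_cast hcard2) hX
  -- the edges
  set F2 := F.filter fun e => e.2 ∈ Z2 with hF2
  set Fa := F.filter fun e => ∃ p ∈ PP, p.totalDegree = 1 ∧ eval e.2 p = 0 ∧ eval e.1 p ≠ 0 with hFa
  set Fb := F.filter fun e => ∃ p ∈ PP, p.totalDegree = 1 ∧ eval e.2 p = 0 ∧ eval e.1 p = 0 with hFb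
  have hlow : θ * Z.card ≤ (F.filter fun e => e.2 ∈ Z).card :=
    COMB_lower θ Z F fun η hη => (hdeg η (Finset.mem_filter.1 hη).1).1
  have hup : F2.card ≤ 2 * θ * Z2.card :=
    COMB_upper θ Z2 F fun η hη =>
      (hdeg η (Finset.mem_filter.1 (Finset.mem_filter.1 hη).1).1).2.le
  have hcover : (F.filter fun e => e.2 ∈ Z) ⊆ F2 ∪ (Fa ∪ Fb) := by
    intro e he
    rw [Finset.mem_filter] at he
    obtain ⟨heF, heZ⟩ := he
    rw [Finset.mem_union, Finset.mem_union]
    obtain ⟨p, hp, hpe⟩ := hcov e.2 (Finset.mem_filter.1 heZ).2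
    by_cases h2d : 2 ≤ p.totalDegree
    · left
      exact Finset.mem_filter.2 ⟨heF, Finset.mem_filter.2 ⟨heZ, p, hp, h2d, hpe⟩⟩
    · right
      have hd1 : p.totalDegree = 1 := by
        have := (hPP p hp).2.2.1
        omega
      by_cases h0 : eval e.1 p = 0
      · right
        exact Finset.mem_filter.2 ⟨heF, p, hp, hd1, hpe, h0⟩
      · left
        exact Finset.mem_filter.2 ⟨heF, p, hp, hd1, hpe, h0⟩
  have hFacard : (Fa.card : ℝ) ≤ (A.card : ℝ) * (M * ((4 * (D : ℝ) + 8) / ξ)) := by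
    refine h2 N D ξ M A B Fa G hN hξ hM hD hG ?_ hA hB ?_ ?_
    · intro e he
      exact hF e (Finset.mem_filter.1 he).1
    · intro ζ l
      refine le_trans ?_ (hmult ζ l)
      have : (Fa.filter fun e => e.1 = ζ ∧ (dt e.1 e.2).natAbs = l).card ≤
          (F.filter fun e => e.1 = ζ ∧ (dt e.1 e.2).natAbs = l).card :=
        Finset.card_le_card (Finset.filter_subset_filter _ (Finset.filter_subset _ _))
      exact_mod_cast this
    · intro e he
      obtain ⟨p, hp, hd1, hpe, h0⟩ := (Finset.mem_filter.1 he).2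
      exact ⟨p, (hPP p hp).2.2.2, ⟨_, (hPP p hp).2.1⟩, hpe, h0⟩
  have hFbcard : Fb.card ≤ D * T := by
    have hsub : Fb ⊆ PP1.biUnion fun p => F.filter fun e => eval e.1 p = 0 ∧ eval e.2 p = 0 := by
      intro e he
      obtain ⟨heF, p, hp, hd1, hpe, h0⟩ := Finset.mem_filter.1 he
      rw [Finset.mem_biUnion]
      exact ⟨p, Finset.mem_filter.2 ⟨hp, hd1⟩, Finset.mem_filter.2 ⟨heF, h0, hpe⟩⟩
    refine (Finset.card_le_card hsub).trans (Finset.card_biUnion_le.trans ?_)
    have : ∑ p ∈ PP1, (F.filter fun e => eval e.1 p = 0 ∧ eval e.2 p = 0).card ≤ PP1.card * T := by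
      rw [← smul_eq_mul]
      apply Finset.sum_le_card_nsmul
      intro p hp
      obtain ⟨hpP, hd1⟩ := Finset.mem_filter.1 hp
      refine h3 N T ξ F _ p (Finset.filter_subset _ _) ?_ (hPP p hpP).1.ne_zero
        (fun e he => (hF e he).2.2) hpt ?_
      · have := (hPP p hpP).2.1
        rwa [hd1] at this
      · intro e he
        exact (Finset.mem_filter.1 he).2
    exact this.trans (Nat.mul_le_mul_right _ hcard1)
  have hFZ : (F.filter fun e => e.2 ∈ Z).card ≤ F2.card + (Fa.card + Fb.card) :=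
    (Finset.card_le_card hcover).trans ((Finset.card_union_le _ _).trans
      (Nat.add_le_add_left (Finset.card_union_le _ _) _))
  have hlowR : (θ : ℝ) * (Z.card : ℝ) ≤ (F2.card : ℝ) + ((Fa.card : ℝ) + (Fb.card : ℝ)) := by
    exact_mod_cast hlow.trans hFZ
  have hupR : (F2.card : ℝ) ≤ 2 * (θ : ℝ) * (Z2.card : ℝ) := by exact_mod_cast hup
  have hFbR : (Fb.card : ℝ) ≤ (T : ℝ) * (D : ℝ) := by
    rw [mul_comm (T : ℝ)]
    exact_mod_cast hFbcard
  have hBR : (B.card : ℝ) ≤ 2 * (Z.card : ℝ) := by exact_mod_cast hBZ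
  have hθ0 : (0 : ℝ) ≤ (θ : ℝ) := Nat.cast_nonneg _
  have h7 : 2 * (θ : ℝ) * (Z2.card : ℝ) ≤ 2 * (θ : ℝ) * (c * ((D : ℝ) ^ 2 + (D : ℝ) * X)) :=
    mul_le_mul_of_nonneg_left hZ2card (by positivity)
  have h8 : (θ : ℝ) * (B.card : ℝ) ≤ (θ : ℝ) * (2 * (Z.card : ℝ)) :=
    mul_le_mul_of_nonneg_left hBR hθ0
  nlinarith [h7, h8, hlowR, hupR, hFbR, hFacard]

end Pool.Agent.WB
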